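import Pool.Agent.Helper40_Dio.AStmt

/-!
# Squad DIO, module CNB: the congruence modulo `b`
-/

set_option autoImplicit false

namespace Pool.Agent.DIO.H81

/-- One double step. -/
lemma even_form (a b s u0 v0 : ℤ) (hs : s * s = a * b + 1) (k : ℕ) :
    ∃ p q : ℤ, (sqg a b s u0 v0 (2 * k)).1 = u0 * (1 + 2 * a * b * k ^ 2) + 2 * s * b * k * v0 + b ^ 2 * p ∧
      (sqg a b s u0 v0 (2 * k)).2 = v0 + 2 * a * s * k * u0 + b * q := by
  induction k with
  | zero => exact ⟨0, 0, by simp [sqg], by simp [sqg]⟩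
  | succ k ih =>
    obtain ⟨p, q, h1, h2⟩ := ih
    have e : 2 * (k + 1) = 2 * k + 1 + 1 := by ring
    rw [e]
    simp only [sqg]
    rw [h1, h2]
    push_cast
    set P1 : ℤ := s * p + q + 2 * a * k * v0 with hP1
    set Q1 : ℤ := 2 * a ^ 2 * k * u0 + s * q + 2 * a ^ 2 * k ^ 2 * u0 + 2 * a * s * k * v0 + a * b * p with hQ1
    refine ⟨s * P1 + Q1 + 2 * a ^ 2 * k * (k + 1) * u0,
      s * Q1 + 2 * a ^ 2 * s * k * (k + 1) * u0 + a * (1 + 2 * k) * v0 + a * b * P1 + a * v0, ?_, ?_⟩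
    · rw [hP1, hQ1]
      have hs2 : s ^ 2 = a * b + 1 := by rw [← hs]; ring
      have hs3 : s ^ 3 = s * (a * b + 1) := by rw [← hs]; ring
      ring_nf
      rw [hs2, hs3]
      ring
    · rw [hP1, hQ1]
      have hs2 : s ^ 2 = a * b + 1 := by rw [← hs]; ring
      have hs3 : s ^ 3 = s * (a * b + 1) := by rw [← hs]; ring
      ring_nf
      rw [hs2, hs3]
      ring

lemma odd_form (a b s u0 v0 : ℤ) (hs : s * s = a * b + 1) (k : ℕ) :
    ∃ p : ℤ, (sqg a b s u0 v0 (2 * k + 1)).1 =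
      s * u0 * (1 + 2 * a * b * k * (k + 1)) + b * (1 + 2 * k) * v0 + b ^ 2 * p := by
  obtain ⟨p, q, h1, h2⟩ := even_form a b s u0 v0 hs k
  refine ⟨s * p + q + 2 * a * k * v0, ?_⟩
  simp only [sqg]
  rw [h1, h2]
  linear_combination (2 * b * k * v0) * hs

lemma sqg_swap (b c t z0 y0 : ℤ) (n : ℕ) :
    (sqg c b t y0 z0 n).1 = (sqg b c t z0 y0 n).2 ∧ (sqg c b t y0 z0 n).2 = (sqg b c t z0 y0 n).1 := by
  induction n with
  | zero => exact ⟨rfl, rfl⟩
  | succ n ih =>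
    simp only [sqg]
    rw [ih.1, ih.2]
    exact ⟨rfl, rfl⟩

theorem cnb : CnbStatement := by
  intro a b c r x y z l m n ε ε' hE hM hln hl
  obtain ⟨ha, hab, hr, hc⟩ := hE
  have hrz : (r : ℤ) * r = a * b + 1 := by exact_mod_cast hr
  have hcz : (c : ℤ) = a + b + 2 * r := by exact_mod_cast hc
  have ht : ((b : ℤ) + r) * (b + r) = c * b + 1 := by
    rw [hcz]; linear_combination hrz
  have hb : (b : ℤ) ≠ 0 := by
    have : 0 < b := by omega
    exact_mod_cast this.ne'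
  have hy1 : (sqg a b r 1 1 l).1 = y := by rw [hl]
  have hy2 : (sqg c b (b + r) 1 ε' n).1 = y := by
    rw [(sqg_swap b c (b + r) ε' 1 n).1, hM.e2]
  rcases Nat.even_or_odd' n with ⟨ν, hν | hν⟩
  · have hle : Even l := hln.2 ⟨ν, by omega⟩
    obtain ⟨lam, hlam⟩ := hle
    have hl2 : l = 2 * lam := by omega
    obtain ⟨p, -, hp, -⟩ := even_form (a : ℤ) b r 1 1 hrz lam
    obtain ⟨q, -, hq, -⟩ := even_form (c : ℤ) b (b + r) 1 ε' ht ν
    rw [hl2, hp] at hy1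
    rw [hν, hq] at hy2
    have key : (b : ℤ) * (2 * a * lam ^ 2 + 2 * r * lam + b * p) =
        b * (2 * c * ν ^ 2 + 2 * (b + r) * ν * ε' + b * q) := by
      linear_combination hy1 - hy2
    have key2 := mul_left_cancel₀ hb key
    refine ⟨2 * ((lam : ℤ) ^ 2 - (ν : ℤ) ^ 2), ?_, ?_⟩
    · rw [hl2, hν]; push_cast; ring
    · rw [hl2, hν]
      push_cast
      refine ⟨r * (2 * ν ^ 2 + 2 * ν * ε' + q - p) - 2 * a * lam + 4 * a * ν ^ 2 + 2 * a * ν * ε', ?_⟩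
      rw [hcz] at key2
      linear_combination (r : ℤ) * key2 + (-2 * (lam : ℤ) + 4 * ν ^ 2 + 2 * ν * ε') * hrz
  · have hlo : ¬ Even l := fun h => by
      have := hln.1 h
      rw [hν] at this
      exact (Nat.not_even_iff_odd.2 ⟨ν, rfl⟩) this
    obtain ⟨lam, hlam⟩ := Nat.not_even_iff_odd.1 hlo
    obtain ⟨p, hp⟩ := odd_form (a : ℤ) b r 1 1 hrz lam
    obtain ⟨q, hq⟩ := odd_form (c : ℤ) b (b + r) 1 ε' ht ν
    rw [hlam, hp] at hy1
    rw [hν, hq] at hy2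
    have key : (b : ℤ) * (2 * a * r * lam * (lam + 1) + 2 * lam + b * p) =
        b * (2 * c * (b + r) * ν * (ν + 1) + ε' * (1 + 2 * ν) + b * q) := by
      linear_combination hy1 - hy2
    have key2 := mul_left_cancel₀ hb key
    refine ⟨2 * ((lam : ℤ) * (lam + 1) - (ν : ℤ) * (ν + 1)), ?_, ?_⟩
    · rw [hlam, hν]; push_cast; ring
    · rw [hlam, hν]
      push_cast
      refine ⟨2 * ν * (ν + 1) * (a + b + 3 * r + 2 * a) + q - p, ?_⟩
      rw [hcz] at key2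
      linear_combination key2 + (4 * (ν : ℤ) * (ν + 1)) * hrz

end Pool.Agent.DIO.H81
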